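import Mathlib

set_option autoImplicit false
set_option linter.style.haveILetI false

/-!
# Dimension shifting for extension groups of modules over noncommutative rings
-/

namespace Pool.Agent.Helper317.Coh

open CategoryTheory Abelian Limits

universe u

variable {A B : Type u} [Ring A] [Ring B]

theorem res_exact (f : A →+* B) (S : ShortComplex (ModuleCat.{u} B)) (h : S.Exact) :
    (S.map (ModuleCat.restrictScalars.{u} f)).Exact := by
  rw [CategoryTheory.ShortComplex.ShortExact.moduleCat_exact_iff_function_exact] at h ⊢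
  exact h

instance resLim (f : A →+* B) : PreservesFiniteLimits (ModuleCat.restrictScalars.{u} f) := by
  have := ((CategoryTheory.Functor.exact_tfae (ModuleCat.restrictScalars.{u} f)).out 1 3).mp
    (res_exact f)
  exact this.1

instance resColim (f : A →+* B) : PreservesFiniteColimits (ModuleCat.restrictScalars.{u} f) := by
  have := ((CategoryTheory.Functor.exact_tfae (ModuleCat.restrictScalars.{u} f)).out 1 3).mp
    (res_exact f)
  exact this.2

/-- every module is a quotient of a projective one -/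
theorem exists_pres (M : ModuleCat.{u} B) : ∃ S : ShortComplex (ModuleCat.{u} B), ∃ _ : S.ShortExact,
    Projective S.X₂ ∧ S.X₃ = M :=
  ⟨M.projectiveShortComplex, M.shortExact_projectiveShortComplex,
    ModuleCat.projective_of_free (Module.Free.chooseBasis B _), rfl⟩

/-- a class is zero if its images under restriction and a jointly coinduced family are zero -/
theorem shap (f : A →+* B)
    (hproj : ∀ P : ModuleCat.{u} B, Projective P → Projective ((ModuleCat.restrictScalars.{u} f).obj P))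
    (Y : ModuleCat.{u} B) {J : Type*} (W : J → ModuleCat.{u} A)
    (ev : ∀ j, (ModuleCat.restrictScalars.{u} f).obj Y ⟶ W j)
    (huniq : ∀ (M : ModuleCat.{u} B) (φ ψ : M ⟶ Y),
      (∀ j, (ModuleCat.restrictScalars.{u} f).map φ ≫ ev j =
        (ModuleCat.restrictScalars.{u} f).map ψ ≫ ev j) → φ = ψ)
    (hex : ∀ (M : ModuleCat.{u} B) (φ : ∀ j, (ModuleCat.restrictScalars.{u} f).obj M ⟶ W j),
      ∃ ψ : M ⟶ Y, ∀ j, (ModuleCat.restrictScalars.{u} f).map ψ ≫ ev j = φ j) :
    ∀ (n : ℕ) (M : ModuleCat.{u} B) (e : Ext M Y n),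
      (∀ j, (e.mapExactFunctor (ModuleCat.restrictScalars.{u} f)).comp
        (Ext.mk₀ (ev j)) (add_zero n) = 0) → e = 0 := by
  intro n
  induction n with
  | zero =>
    intro M e he
    obtain ⟨φ, rfl⟩ := (Ext.mk₀_bijective M Y).2 e
    have h1 : φ = 0 := by
      refine huniq M φ 0 fun j => ?_
      have h2 := he j
      rw [Ext.mapExactFunctor_mk₀, Ext.mk₀_comp_mk₀] at h2
      rw [Functor.map_zero, zero_comp]
      exact (Ext.mk₀_bijective _ _).1 (by rw [h2, Ext.mk₀_zero])
    rw [h1, Ext.mk₀_zero]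
  | succ n ih =>
    intro M e he
    obtain ⟨S, hS, hP, rfl⟩ := exists_pres M
    obtain ⟨x, hx⟩ := Ext.contravariant_sequence_exact₃ hS Y e
      (Ext.eq_zero_of_projective _) (add_comm 1 n)
    have h1 : ∀ j, ∃ y : Ext ((ModuleCat.restrictScalars.{u} f).obj S.X₂) (W j) n,
        (Ext.mk₀ ((ModuleCat.restrictScalars.{u} f).map S.f)).comp y (zero_add n) =
          (x.mapExactFunctor (ModuleCat.restrictScalars.{u} f)).comp (Ext.mk₀ (ev j)) (add_zero n) := by
      intro j
      refine Ext.contravariant_sequence_exact₁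
        (hS.map_of_exact (ModuleCat.restrictScalars.{u} f)) _ _ (add_comm 1 n) ?_
      have h2 := he j
      rw [← hx, Ext.mapExactFunctor_comp, Ext.comp_assoc_of_third_deg_zero,
        Ext.mapExactFunctor_extClass] at h2
      exact h2
    choose y hy using h1
    have h3 : ∃ z : Ext S.X₂ Y n, (Ext.mk₀ S.f).comp z (zero_add n) = x := by
      cases n with
      | zero =>
        obtain ⟨φ, rfl⟩ := (Ext.mk₀_bijective _ _).2 x
        choose ψ hψ using fun j => (Ext.mk₀_bijective _ _).2 (y j)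
        obtain ⟨θ, hθ⟩ := hex S.X₂ ψ
        refine ⟨Ext.mk₀ θ, ?_⟩
        rw [Ext.mk₀_comp_mk₀]
        congr 1
        refine huniq _ _ _ fun j => ?_
        rw [Functor.map_comp, Category.assoc, hθ]
        have h4 := hy j
        rw [← hψ j, Ext.mk₀_comp_mk₀, Ext.mapExactFunctor_mk₀, Ext.mk₀_comp_mk₀] at h4
        exact (Ext.mk₀_bijective _ _).1 h4
      | succ k =>
        refine ⟨0, ?_⟩
        rw [Ext.comp_zero]
        refine (ih _ x fun j => ?_).symm
        rw [← hy j]
        haveI := hproj _ hP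
        rw [Ext.eq_zero_of_projective (y j), Ext.comp_zero]
    obtain ⟨z, hz⟩ := h3
    rw [← hx, ← hz, ShortComplex.ShortExact.extClass_comp_assoc]

/-- propagation of vanishing along a twisting operator -/
theorem twist (f : A →+* B)
    (hproj : ∀ P : ModuleCat.{u} B, Projective P → Projective ((ModuleCat.restrictScalars.{u} f).obj P))
    (X : ModuleCat.{u} B) (Z : ModuleCat.{u} A)
    (c : ∀ M : ModuleCat.{u} B, ((ModuleCat.restrictScalars.{u} f).obj M ⟶ Z) →
      ((ModuleCat.restrictScalars.{u} f).obj M ⟶ Z))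
    (hc0 : ∀ M, c M 0 = 0)
    (hc1 : ∀ (M M' : ModuleCat.{u} B) (φ : M ⟶ M')
      (g : (ModuleCat.restrictScalars.{u} f).obj M' ⟶ Z),
      c M ((ModuleCat.restrictScalars.{u} f).map φ ≫ g) =
        (ModuleCat.restrictScalars.{u} f).map φ ≫ c M' g)
    (p : (ModuleCat.restrictScalars.{u} f).obj X ⟶ Z) :
    ∀ (n : ℕ) (M : ModuleCat.{u} B) (e : Ext M X n),
      (e.mapExactFunctor (ModuleCat.restrictScalars.{u} f)).comp (Ext.mk₀ p) (add_zero n) = 0 →
      (e.mapExactFunctor (ModuleCat.restrictScalars.{u} f)).comp (Ext.mk₀ (c X p)) (add_zero n) = 0 := by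
  intro n
  induction n with
  | zero =>
    intro M e he
    obtain ⟨φ, rfl⟩ := (Ext.mk₀_bijective M X).2 e
    rw [Ext.mapExactFunctor_mk₀, Ext.mk₀_comp_mk₀] at he ⊢
    have h1 : (ModuleCat.restrictScalars.{u} f).map φ ≫ p = 0 :=
      (Ext.mk₀_bijective _ _).1 (by rw [he, Ext.mk₀_zero])
    rw [← hc1, h1, hc0, Ext.mk₀_zero]
  | succ n ih =>
    intro M e he
    obtain ⟨S, hS, hP, rfl⟩ := exists_pres M
    obtain ⟨x, hx⟩ := Ext.contravariant_sequence_exact₃ hS X e
      (Ext.eq_zero_of_projective _) (add_comm 1 n)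
    obtain ⟨y, hy⟩ : ∃ y : Ext ((ModuleCat.restrictScalars.{u} f).obj S.X₂) Z n,
        (Ext.mk₀ ((ModuleCat.restrictScalars.{u} f).map S.f)).comp y (zero_add n) =
          (x.mapExactFunctor (ModuleCat.restrictScalars.{u} f)).comp (Ext.mk₀ p) (add_zero n) := by
      refine Ext.contravariant_sequence_exact₁
        (hS.map_of_exact (ModuleCat.restrictScalars.{u} f)) _ _ (add_comm 1 n) ?_
      rw [← hx, Ext.mapExactFunctor_comp, Ext.comp_assoc_of_third_deg_zero,
        Ext.mapExactFunctor_extClass] at he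
      exact he
    have h3 : ∃ z : Ext ((ModuleCat.restrictScalars.{u} f).obj S.X₂) Z n,
        (Ext.mk₀ ((ModuleCat.restrictScalars.{u} f).map S.f)).comp z (zero_add n) =
          (x.mapExactFunctor (ModuleCat.restrictScalars.{u} f)).comp
            (Ext.mk₀ (c X p)) (add_zero n) := by
      cases n with
      | zero =>
        obtain ⟨φ, rfl⟩ := (Ext.mk₀_bijective _ _).2 x
        obtain ⟨ψ, rfl⟩ := (Ext.mk₀_bijective _ _).2 y
        refine ⟨Ext.mk₀ (c _ ψ), ?_⟩
        rw [Ext.mk₀_comp_mk₀, Ext.mapExactFunctor_mk₀, Ext.mk₀_comp_mk₀] at hy ⊢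
        rw [← hc1, ← hc1, (Ext.mk₀_bijective _ _).1 hy]
      | succ k =>
        refine ⟨0, ?_⟩
        rw [Ext.comp_zero]
        refine (ih _ x ?_).symm
        rw [← hy]
        haveI := hproj _ hP
        rw [Ext.eq_zero_of_projective y, Ext.comp_zero]
    obtain ⟨z, hz⟩ := h3
    rw [← hx, Ext.mapExactFunctor_comp, Ext.comp_assoc_of_third_deg_zero,
      Ext.mapExactFunctor_extClass, ← hz]
    exact ShortComplex.ShortExact.extClass_comp_assoc _ _

/-- finite support -/
theorem fsupp [IsNoetherianRing A] (Z : ModuleCat.{u} A) {I : Type*} (π : I → (Z ⟶ Z))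
    (h0 : ∀ (M : ModuleCat.{u} A), Module.Finite A M → ∀ φ : M ⟶ Z, ∃ i, φ ≫ π i = φ) :
    ∀ (n : ℕ) (M : ModuleCat.{u} A), Module.Finite A M → ∀ e : Ext M Z n,
      ∃ i, e.comp (Ext.mk₀ (π i)) (add_zero n) = e := by
  intro n
  induction n with
  | zero =>
    intro M hM e
    obtain ⟨φ, rfl⟩ := (Ext.mk₀_bijective M Z).2 e
    obtain ⟨i, hi⟩ := h0 M hM φ
    exact ⟨i, by rw [Ext.mk₀_comp_mk₀, hi]⟩
  | succ n ih =>
    intro M hM e
    obtain ⟨k, g, hg⟩ := Module.Finite.exists_fin' A M
    have hS := LinearMap.shortExact_shortComplexKer hg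
    haveI : Projective (g.shortComplexKer).X₂ :=
      ModuleCat.projective_of_free (Module.Free.chooseBasis A (Fin k → A))
    obtain ⟨x, hx⟩ := Ext.contravariant_sequence_exact₃ hS Z e
      (Ext.eq_zero_of_projective _) (add_comm 1 n)
    have hfin : Module.Finite A (g.shortComplexKer).X₁ :=
      inferInstanceAs (Module.Finite A (LinearMap.ker g))
    obtain ⟨i, hi⟩ := ih _ hfin x
    refine ⟨i, ?_⟩
    rw [← hx, Ext.comp_assoc_of_third_deg_zero, hi]

end Pool.Agent.Helper317.Coh
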