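import Mathlib
import Pool.Agent.Helper317.Coh.Shift

set_option autoImplicit false
set_option linter.style.haveILetI false

/-!
# Restriction of modules to subgroups preserves projectives
-/

namespace Pool.Agent.Helper317.Coh

open CategoryTheory Abelian Limits MonoidAlgebra

universe u

variable {A H : Type u} [Group A] [Group H]

/-- the homomorphism of integral group rings induced by a homomorphism of groups -/
noncomputable abbrev rr (g : A →* H) : MonoidAlgebra ℤ A →+* MonoidAlgebra ℤ H :=
  MonoidAlgebra.mapDomainRingHom ℤ g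

theorem rr_single (g : A →* H) (a : A) (r : ℤ) : rr g (single a r) = single (g a) r := by simp [rr]

/-- extension of an equivariant function to a linear map -/
theorem exists_lift (g : A →* H) (M : ModuleCat.{u} (MonoidAlgebra ℤ A)) (φ : H → M)
    (hφ : ∀ (a : A) (x : H), φ (g a * x) = (single a (1 : ℤ) : MonoidAlgebra ℤ A) • φ x) :
    ∃ Φ : ((ModuleCat.restrictScalars.{u} (rr g)).obj
        (ModuleCat.of (MonoidAlgebra ℤ H) (MonoidAlgebra ℤ H)) →ₗ[MonoidAlgebra ℤ A] M),
      ∀ x : H, Φ (single x (1 : ℤ) : MonoidAlgebra ℤ H) = φ x := by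
  classical
  let Φ0 : MonoidAlgebra ℤ H →+ M :=
    (Finsupp.liftAddHom fun x : H =>
      ({ toFun := fun r : ℤ => r • φ x
         map_zero' := by simp
         map_add' := fun a b => by rw [add_smul] } : ℤ →+ M)).comp
      (coeffAddEquiv (R := ℤ) (M := H)).toAddMonoidHom
  have h1 : ∀ (x : H) (r : ℤ), Φ0 (single x r) = r • φ x := by
    intro x r
    simp [Φ0]
  have h2 : ∀ (a : MonoidAlgebra ℤ A) (y : MonoidAlgebra ℤ H), Φ0 (rr g a * y) = a • Φ0 y := by
    intro a y
    induction a using MonoidAlgebra.induction_linear with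
    | zero => rw [map_zero, zero_mul, map_zero, zero_smul]
    | add a b ha hb => rw [map_add, add_mul, map_add, ha, hb, add_smul]
    | single a r =>
      induction y using MonoidAlgebra.induction_linear with
      | zero => rw [mul_zero, map_zero, smul_zero]
      | add x y hx hy => rw [mul_add, map_add, map_add, hx, hy, smul_add]
      | single x s =>
        rw [rr_single, single_mul_single, h1, h1, hφ]
        have e1 : (single a r : MonoidAlgebra ℤ A) = r • single a (1 : ℤ) := by
          rw [smul_single, smul_eq_mul, mul_one]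
        rw [e1, smul_assoc, smul_comm _ s (φ x), mul_smul]
  exact ⟨{ toFun := fun y => Φ0 y
           map_add' := fun x y => map_add Φ0 x y
           map_smul' := fun a y => h2 a y }, fun x => by
            show Φ0 (single x 1) = φ x
            rw [h1, one_smul]⟩

/-- right cosets of the image of `g` -/
abbrev Qr (g : A →* H) : Type u := Quotient (QuotientGroup.rightRel g.range)

/-- representative of the right coset -/
noncomputable def rep (g : A →* H) (x : H) : H := (Quotient.mk (QuotientGroup.rightRel g.range) x).out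

theorem exists_rep (g : A →* H) (x : H) : ∃ a : A, x = g a * rep g x := by
  have h1 : QuotientGroup.rightRel g.range (rep g x) x := Quotient.mk_out x
  rw [QuotientGroup.rightRel_apply] at h1
  obtain ⟨a, ha⟩ := h1
  exact ⟨a, by rw [ha, inv_mul_cancel_right]⟩

theorem rep_mul (g : A →* H) (a : A) (x : H) : rep g (g a * x) = rep g x := by
  unfold rep
  congr 1
  refine Quotient.sound ?_
  show QuotientGroup.rightRel g.range (g a * x) x
  rw [QuotientGroup.rightRel_apply]
  refine ⟨a⁻¹, ?_⟩
  rw [map_inv]
  group

theorem exists_lift_rep (g : A →* H) (hg : Function.Injective g)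
    (M : ModuleCat.{u} (MonoidAlgebra ℤ A)) (ψ : H → M) :
    ∃ Φ : ((ModuleCat.restrictScalars.{u} (rr g)).obj
        (ModuleCat.of (MonoidAlgebra ℤ H) (MonoidAlgebra ℤ H)) →ₗ[MonoidAlgebra ℤ A] M),
      ∀ (a : A) (x : H), Φ (single (g a * rep g x) (1 : ℤ) : MonoidAlgebra ℤ H) =
        (single a (1 : ℤ) : MonoidAlgebra ℤ A) • ψ (rep g x) := by
  choose c hc using exists_rep g
  have hc1 : ∀ a x, c (g a * x) = a * c x := by
    intro a x
    apply hg
    have h1 := hc (g a * x)
    rw [rep_mul] at h1
    have h2 : g a * x = g (a * c x) * rep g x := by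
      rw [map_mul, mul_assoc, ← hc x]
    rw [h2] at h1
    have h3 := mul_right_cancel h1
    rw [h2, ← h3]
  obtain ⟨Φ, hΦ⟩ := exists_lift g M (fun x => (single (c x) (1 : ℤ) : MonoidAlgebra ℤ A) • ψ (rep g x))
    (by
      intro a x
      show (single (c (g a * x)) (1 : ℤ) : MonoidAlgebra ℤ A) • ψ (rep g (g a * x)) =
        (single a (1 : ℤ) : MonoidAlgebra ℤ A) • (single (c x) (1 : ℤ) : MonoidAlgebra ℤ A) • ψ (rep g x)
      rw [hc1, rep_mul, smul_smul, single_mul_single, mul_one])
  refine ⟨Φ, fun a x => ?_⟩
  rw [hΦ, rep_mul]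
  have h1 : rep g (rep g x) = rep g x := by
    obtain ⟨b, hb⟩ := exists_rep g x
    conv_rhs => rw [hb, rep_mul]
  have h2 : c (rep g x) = 1 := by
    apply hg
    have h3 := hc (rep g x)
    rw [h1] at h3
    rw [map_one]
    exact (mul_eq_right.1 h3.symm)
  rw [hc1, h1, h2, mul_one]

/-- the group ring of `H` is projective over the group ring of `A` -/
theorem proj_ring (g : A →* H) (hg : Function.Injective g) :
    Module.Projective (MonoidAlgebra ℤ A) ((ModuleCat.restrictScalars.{u} (rr g)).obj
        (ModuleCat.of (MonoidAlgebra ℤ H) (MonoidAlgebra ℤ H))) := by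
  classical
  refine Module.Projective.of_lifting_property'' ?_
  intro f hf
  choose ψ hψ using hf
  obtain ⟨Φ, hΦ⟩ := exists_lift_rep g hg (ModuleCat.of (MonoidAlgebra ℤ A)
    (((ModuleCat.restrictScalars.{u} (rr g)).obj
        (ModuleCat.of (MonoidAlgebra ℤ H) (MonoidAlgebra ℤ H))) →₀ MonoidAlgebra ℤ A))
    (fun x => ψ (single x (1 : ℤ) : MonoidAlgebra ℤ H))
  refine ⟨Φ, ?_⟩
  have key : ∀ x : H, f (Φ (single x (1 : ℤ) : MonoidAlgebra ℤ H)) =
      (single x (1 : ℤ) : MonoidAlgebra ℤ H) := by
    intro x
    obtain ⟨a, ha⟩ := exists_rep g x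
    have h1 := hΦ a x
    rw [← ha] at h1
    rw [h1]
    have h2 := hψ (single (rep g x) (1 : ℤ) : MonoidAlgebra ℤ H)
    refine ((map_smul f _ _).trans
      (congrArg (fun z => (single a (1 : ℤ) : MonoidAlgebra ℤ A) • z) h2)).trans ?_
    show rr g (single a 1) * (single (rep g x) 1 : MonoidAlgebra ℤ H) = _
    rw [rr_single, single_mul_single, mul_one, ← ha]
  refine LinearMap.ext fun y => ?_
  show f (Φ y) = y
  have key2 : ∀ y : MonoidAlgebra ℤ H, f (Φ y) = y := by
    intro y
    induction y using MonoidAlgebra.induction_linear with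
    | zero => exact (congrArg f (map_zero Φ)).trans (map_zero f)
    | add x y hx hy =>
      refine (congrArg f (map_add Φ _ _)).trans ((map_add f _ _).trans ?_)
      rw [hx, hy]
      rfl
    | single x r =>
      have e1 : (single x r : MonoidAlgebra ℤ H) = r • single x (1 : ℤ) := by
        rw [smul_single, smul_eq_mul, mul_one]
      rw [e1]
      refine (congrArg f (map_zsmul Φ r _)).trans ((map_zsmul f r _).trans ?_)
      rw [key]
      rfl
  exact key2 y

theorem coext_epi (g : A →* H) (hg : Function.Injective g) :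
    (ModuleCat.coextendScalars.{u, u, u} (rr g)).PreservesEpimorphisms := by
  refine ⟨fun {M M'} p hp => ?_⟩
  rw [ModuleCat.epi_iff_surjective] at hp ⊢
  intro φ
  haveI := proj_ring g hg
  obtain ⟨ψ, hψ⟩ := Module.projective_lifting_property p.hom
    (ModuleCat.CoextendScalars.equiv (rr g) M' φ) hp
  refine ⟨(ModuleCat.CoextendScalars.equiv (rr g) M).symm ψ, ?_⟩
  apply ModuleCat.CoextendScalars.ext
  exact hψ

/-- restriction to a subgroup preserves projectives -/
theorem proj_res (g : A →* H) (hg : Function.Injective g) (P : ModuleCat.{u} (MonoidAlgebra ℤ H))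
    (hP : Projective P) : Projective ((ModuleCat.restrictScalars.{u} (rr g)).obj P) := by
  haveI := coext_epi g hg
  exact (ModuleCat.restrictCoextendScalarsAdj.{u, u, u} (rr g)).map_projective P hP

end Pool.Agent.Helper317.Coh
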