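import Mathlib
import Pool.Agent.Helper317.Coh.Proj

set_option autoImplicit false
set_option linter.style.haveILetI false

/-!
# Coinduced modules
-/

namespace Pool.Agent.Helper317.Coh

open CategoryTheory Abelian Limits MonoidAlgebra

universe u

variable {A H : Type u} [Group A] [Group H]

/-- the coinduced module of the restriction of `X` -/
noncomputable abbrev TT (g : A →* H) (X : ModuleCat.{u} (MonoidAlgebra ℤ H)) :
    ModuleCat.{u} (MonoidAlgebra ℤ H) :=
  (ModuleCat.coextendScalars.{u, u, u} (rr g)).obj ((ModuleCat.restrictScalars.{u} (rr g)).obj X)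

/-- the embedding into the coinduced module -/
noncomputable abbrev eta (g : A →* H) (X : ModuleCat.{u} (MonoidAlgebra ℤ H)) : X ⟶ TT g X :=
  (ModuleCat.restrictCoextendScalarsAdj.{u, u, u} (rr g)).unit.app X

/-- evaluation at one -/
noncomputable abbrev evo (g : A →* H) (X : ModuleCat.{u} (MonoidAlgebra ℤ H)) :
    (ModuleCat.restrictScalars.{u} (rr g)).obj (TT g X) ⟶ (ModuleCat.restrictScalars.{u} (rr g)).obj X :=
  (ModuleCat.restrictCoextendScalarsAdj.{u, u, u} (rr g)).counit.app
    ((ModuleCat.restrictScalars.{u} (rr g)).obj X)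

theorem eta_evo (g : A →* H) (X : ModuleCat.{u} (MonoidAlgebra ℤ H)) :
    (ModuleCat.restrictScalars.{u} (rr g)).map (eta g X) ≫ evo g X = 𝟙 _ :=
  (ModuleCat.restrictCoextendScalarsAdj.{u, u, u} (rr g)).left_triangle_components X

theorem comp_eta (g : A →* H) (hg : Function.Injective g) (M X : ModuleCat.{u} (MonoidAlgebra ℤ H))
    (n : ℕ) (e : Ext M X n) (he : e.mapExactFunctor (ModuleCat.restrictScalars.{u} (rr g)) = 0) :
    e.comp (Ext.mk₀ (eta g X)) (add_zero n) = 0 := by
  refine shap (rr g) (proj_res g hg) (TT g X) (J := Unit) (fun _ => _) (fun _ => evo g X) ?_ ?_ n M _ ?_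
  · intro M φ ψ h
    have h1 := h ()
    apply ((ModuleCat.restrictCoextendScalarsAdj.{u, u, u} (rr g)).homEquiv M _).symm.injective
    rw [Adjunction.homEquiv_counit, Adjunction.homEquiv_counit]
    exact h1
  · intro M φ
    refine ⟨(ModuleCat.restrictCoextendScalarsAdj.{u, u, u} (rr g)).homEquiv M _ (φ ()), ?_⟩
    intro j
    have h2 := ((ModuleCat.restrictCoextendScalarsAdj.{u, u, u} (rr g)).homEquiv M _).symm_apply_apply
      (φ ())
    rw [Adjunction.homEquiv_counit] at h2
    exact h2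
  · intro j
    rw [Ext.mapExactFunctor_comp, he, Ext.zero_comp, Ext.zero_comp]

theorem lin_ext (g : A →* H) (M : ModuleCat.{u} (MonoidAlgebra ℤ A))
    (Φ Ψ : ((ModuleCat.restrictScalars.{u} (rr g)).obj
        (ModuleCat.of (MonoidAlgebra ℤ H) (MonoidAlgebra ℤ H)) →ₗ[MonoidAlgebra ℤ A] M))
    (h : ∀ x : H, Φ (single x (1 : ℤ) : MonoidAlgebra ℤ H) = Ψ (single x (1 : ℤ) : MonoidAlgebra ℤ H)) :
    Φ = Ψ := by
  have key : ∀ y : MonoidAlgebra ℤ H, Φ y = Ψ y := by
    intro y
    induction y using MonoidAlgebra.induction_linear with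
    | zero => exact (map_zero Φ).trans (map_zero Ψ).symm
    | add x y hx hy =>
      refine (map_add Φ _ _).trans (Eq.trans ?_ (map_add Ψ _ _).symm)
      rw [hx, hy]
    | single x r =>
      have e1 : (single x r : MonoidAlgebra ℤ H) = r • single x (1 : ℤ) := by
        rw [smul_single, smul_eq_mul, mul_one]
      rw [e1]
      refine (map_zsmul Φ r _).trans (Eq.trans ?_ (map_zsmul Ψ r _).symm)
      rw [h]
  exact LinearMap.ext key

/-- the value of an element of the coinduced module -/
noncomputable def val (g : A →* H) (X : ModuleCat.{u} (MonoidAlgebra ℤ H)) (φ : TT g X)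
    (s : MonoidAlgebra ℤ H) : X :=
  (ModuleCat.CoextendScalars.equiv (rr g) _ φ) s

theorem val_smul (g : A →* H) (X : ModuleCat.{u} (MonoidAlgebra ℤ H)) (φ : TT g X)
    (c s : MonoidAlgebra ℤ H) : val g X (c • φ) s = val g X φ (s * c) := rfl

theorem val_add (g : A →* H) (X : ModuleCat.{u} (MonoidAlgebra ℤ H)) (φ ψ : TT g X)
    (s : MonoidAlgebra ℤ H) : val g X (φ + ψ) s = val g X φ s + val g X ψ s := rfl

theorem val_zero (g : A →* H) (X : ModuleCat.{u} (MonoidAlgebra ℤ H))
    (s : MonoidAlgebra ℤ H) : val g X 0 s = 0 := rfl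

theorem val_lin (g : A →* H) (X : ModuleCat.{u} (MonoidAlgebra ℤ H)) (φ : TT g X)
    (c : MonoidAlgebra ℤ A) (s : MonoidAlgebra ℤ H) :
    val g X φ (rr g c * s) = rr g c • val g X φ s :=
  (ModuleCat.CoextendScalars.equiv (rr g) _ φ).map_smul c s

theorem val_tw (g : A →* H) (hn : ∀ (x : H) (a : A), ∃ a' : A, x * g a * x⁻¹ = g a')
    (X : ModuleCat.{u} (MonoidAlgebra ℤ H)) (x : H) (φ : TT g X) (c : MonoidAlgebra ℤ A) :
    (single x⁻¹ (1 : ℤ) : MonoidAlgebra ℤ H) • val g X (rr g c • φ) (single x (1 : ℤ)) =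
      rr g c • ((single x⁻¹ (1 : ℤ) : MonoidAlgebra ℤ H) • val g X φ (single x (1 : ℤ))) := by
  induction c using MonoidAlgebra.induction_linear with
  | zero =>
    rw [map_zero, zero_smul, zero_smul, val_zero, smul_zero]
  | add a b ha hb =>
    rw [map_add, add_smul, add_smul, val_add, smul_add, ha, hb]
  | single a r =>
    obtain ⟨a', ha'⟩ := hn x a
    rw [rr_single, val_smul, single_mul_single]
    have e1 : (single (x * g a) (1 * r) : MonoidAlgebra ℤ H) =
        rr g (single a' r) * single x (1 : ℤ) := by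
      rw [rr_single, single_mul_single, ← ha', mul_one, one_mul]
      congr 1
      group
    rw [e1, val_lin, rr_single, smul_smul, smul_smul, single_mul_single, single_mul_single, ← ha']
    congr 2
    · group
    · ring

/-- the twisted evaluation at `x` -/
noncomputable def pr (g : A →* H) (hn : ∀ (x : H) (a : A), ∃ a' : A, x * g a * x⁻¹ = g a')
    (X : ModuleCat.{u} (MonoidAlgebra ℤ H)) (x : H) :
    (ModuleCat.restrictScalars.{u} (rr g)).obj (TT g X) ⟶
      (ModuleCat.restrictScalars.{u} (rr g)).obj X :=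
  ModuleCat.ofHom (X := (ModuleCat.restrictScalars.{u} (rr g)).obj (TT g X))
    (Y := (ModuleCat.restrictScalars.{u} (rr g)).obj X)
    { toFun := fun φ => ((single x⁻¹ (1 : ℤ) : MonoidAlgebra ℤ H) • val g X φ (single x (1 : ℤ)) : X)
      map_add' := fun _ _ => smul_add (single x⁻¹ (1 : ℤ) : MonoidAlgebra ℤ H) _ _
      map_smul' := fun c φ => val_tw g hn X x φ c }

theorem pr_apply (g : A →* H) (hn : ∀ (x : H) (a : A), ∃ a' : A, x * g a * x⁻¹ = g a')
    (X : ModuleCat.{u} (MonoidAlgebra ℤ H)) (x : H) (φ : TT g X) :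
    (pr g hn X x).hom φ = ((single x⁻¹ (1 : ℤ) : MonoidAlgebra ℤ H) • val g X φ (single x (1 : ℤ)) : X) :=
  rfl

theorem val_ext (g : A →* H) (X : ModuleCat.{u} (MonoidAlgebra ℤ H)) (φ ψ : TT g X)
    (h : ∀ x : H, val g X φ (single x (1 : ℤ)) = val g X ψ (single x (1 : ℤ))) : φ = ψ := by
  apply ModuleCat.CoextendScalars.ext
  exact lin_ext g _ _ _ h

theorem tt_ext (g : A →* H) (X : ModuleCat.{u} (MonoidAlgebra ℤ H)) (φ ψ : TT g X)
    (h : ∀ q : Qr g, ((single (q.out)⁻¹ (1 : ℤ) : MonoidAlgebra ℤ H) •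
        val g X φ (single q.out (1 : ℤ)) : X) =
        ((single (q.out)⁻¹ (1 : ℤ) : MonoidAlgebra ℤ H) •
        val g X ψ (single q.out (1 : ℤ)) : X)) : φ = ψ := by
  apply val_ext
  intro x
  obtain ⟨a, ha⟩ := exists_rep g x
  have h2 := h (Quotient.mk (QuotientGroup.rightRel g.range) x)
  have h3 : val g X φ (single (rep g x) (1 : ℤ)) = val g X ψ (single (rep g x) (1 : ℤ)) := by
    have h4 := congrArg (fun v : X => (single (rep g x) (1 : ℤ) : MonoidAlgebra ℤ H) • v) h2
    have e2 : ∀ v : X, (single (rep g x) (1 : ℤ) : MonoidAlgebra ℤ H) •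
        ((single (rep g x)⁻¹ (1 : ℤ) : MonoidAlgebra ℤ H) • v) = v := by
      intro v
      rw [smul_smul, single_mul_single, mul_inv_cancel, mul_one, ← one_def, one_smul]
    exact (e2 _).symm.trans (h4.trans (e2 _))
  have e1 : (single x (1 : ℤ) : MonoidAlgebra ℤ H) = rr g (single a 1) * single (rep g x) (1 : ℤ) := by
    rw [rr_single, single_mul_single, ← ha, mul_one]
  rw [e1, val_lin, val_lin, h3]

/-- the underlying map of a morphism to a restricted module -/
noncomputable def und (g : A →* H) (X : ModuleCat.{u} (MonoidAlgebra ℤ H)) (M : ModuleCat.{u} (MonoidAlgebra ℤ A))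
    (φ : M ⟶ (ModuleCat.restrictScalars.{u} (rr g)).obj X) (m : M) : X := φ.hom m

theorem und_add (g : A →* H) (X : ModuleCat.{u} (MonoidAlgebra ℤ H))
    (M : ModuleCat.{u} (MonoidAlgebra ℤ A)) (φ : M ⟶ (ModuleCat.restrictScalars.{u} (rr g)).obj X)
    (m m' : M) : und g X M φ (m + m') = und g X M φ m + und g X M φ m' := φ.hom.map_add m m'

theorem und_zero (g : A →* H) (X : ModuleCat.{u} (MonoidAlgebra ℤ H))
    (M : ModuleCat.{u} (MonoidAlgebra ℤ A)) (φ : M ⟶ (ModuleCat.restrictScalars.{u} (rr g)).obj X) :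
    und g X M φ 0 = 0 := φ.hom.map_zero

theorem und_smul (g : A →* H) (X : ModuleCat.{u} (MonoidAlgebra ℤ H))
    (M : ModuleCat.{u} (MonoidAlgebra ℤ A)) (φ : M ⟶ (ModuleCat.restrictScalars.{u} (rr g)).obj X)
    (c : MonoidAlgebra ℤ A) (m : M) : und g X M φ (c • m) = rr g c • und g X M φ m :=
  φ.hom.map_smul c m

theorem tt_glue (g : A →* H) (hn : ∀ (x : H) (a : A), ∃ a' : A, x * g a * x⁻¹ = g a')
    (X : ModuleCat.{u} (MonoidAlgebra ℤ H)) (M : ModuleCat.{u} (MonoidAlgebra ℤ A))
    (φ : Qr g → (M ⟶ (ModuleCat.restrictScalars.{u} (rr g)).obj X)) :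
    ∃ ψ : M ⟶ (ModuleCat.restrictScalars.{u} (rr g)).obj (TT g X),
      ∀ q : Qr g, ψ ≫ pr g hn X q.out = φ q := by
  have h1 : ∀ m : M, ∃ t : TT g X, ∀ x : H, val g X t (single x (1 : ℤ)) =
      (single x (1 : ℤ) : MonoidAlgebra ℤ H) •
        und g X M (φ (Quotient.mk (QuotientGroup.rightRel g.range) x)) m := by
    intro m
    obtain ⟨Φ, hΦ⟩ := exists_lift g ((ModuleCat.restrictScalars.{u} (rr g)).obj X)
      (fun x : H => ((single x (1 : ℤ) : MonoidAlgebra ℤ H) •
        und g X M (φ (Quotient.mk (QuotientGroup.rightRel g.range) x)) m : X)) (by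
        intro a x
        have e1 : Quotient.mk (QuotientGroup.rightRel g.range) (g a * x) =
            Quotient.mk (QuotientGroup.rightRel g.range) x := by
          refine Quotient.sound ?_
          show QuotientGroup.rightRel g.range (g a * x) x
          rw [QuotientGroup.rightRel_apply]
          refine ⟨a⁻¹, ?_⟩
          rw [map_inv]
          group
        show (single (g a * x) (1 : ℤ) : MonoidAlgebra ℤ H) •
            und g X M (φ (Quotient.mk (QuotientGroup.rightRel g.range) (g a * x))) m =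
          rr g (single a (1 : ℤ)) • ((single x (1 : ℤ) : MonoidAlgebra ℤ H) •
            und g X M (φ (Quotient.mk (QuotientGroup.rightRel g.range) x)) m)
        rw [e1, rr_single, smul_smul, single_mul_single, mul_one])
    exact ⟨(ModuleCat.CoextendScalars.equiv (rr g) _).symm Φ, hΦ⟩
  choose t ht using h1
  have hadd : ∀ m m', t (m + m') = t m + t m' := by
    intro m m'
    apply val_ext
    intro x
    rw [val_add, ht, ht, ht, und_add, smul_add]
  have hsmul : ∀ (c : MonoidAlgebra ℤ A) (m : M), t (c • m) = rr g c • t m := by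
    intro c m
    induction c using MonoidAlgebra.induction_linear with
    | zero =>
      rw [zero_smul, map_zero, zero_smul]
      apply val_ext
      intro x
      rw [ht, und_zero, smul_zero, val_zero]
    | add a b ha hb => rw [add_smul, hadd, ha, hb, map_add, add_smul]
    | single a r =>
      apply val_ext
      intro x
      obtain ⟨a', ha'⟩ := hn x a
      rw [ht, und_smul, rr_single, val_smul, single_mul_single]
      have e1 : (single (x * g a) (1 * r) : MonoidAlgebra ℤ H) =
          rr g (single a' r) * single x (1 : ℤ) := by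
        rw [rr_single, single_mul_single, ← ha', mul_one, one_mul]
        congr 1
        group
      rw [e1, val_lin, ht, rr_single, smul_smul, smul_smul, single_mul_single, single_mul_single,
        ← ha']
      congr 2
      · group
      · ring
  refine ⟨ModuleCat.ofHom (X := M) (Y := (ModuleCat.restrictScalars.{u} (rr g)).obj (TT g X))
    { toFun := t, map_add' := hadd, map_smul' := hsmul }, fun q => ?_⟩
  ext m
  show ((single (q.out)⁻¹ (1 : ℤ) : MonoidAlgebra ℤ H) • val g X (t m) (single q.out (1 : ℤ)) : X) =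
    und g X M (φ q) m
  rw [ht, smul_smul, single_mul_single, inv_mul_cancel, mul_one, ← one_def, one_smul]
  congr 2
  exact Quotient.out_eq q

/-- restriction along the identity -/
theorem proj_id (P : ModuleCat.{u} (MonoidAlgebra ℤ A)) (hP : Projective P) :
    Projective ((ModuleCat.restrictScalars.{u} (RingHom.id (MonoidAlgebra ℤ A))).obj P) :=
  Projective.of_iso (ModuleCat.restrictScalarsId'App _ rfl P).symm hP

/-- the restriction of the coinduced module is a product of copies of the restriction -/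
theorem res_TT_zero (g : A →* H)
    (hn : ∀ (x : H) (a : A), ∃ a' : A, x * g a * x⁻¹ = g a')
    (X : ModuleCat.{u} (MonoidAlgebra ℤ H)) (M : ModuleCat.{u} (MonoidAlgebra ℤ A)) (n : ℕ)
    (h : ∀ e : Ext M ((ModuleCat.restrictScalars.{u} (rr g)).obj X) n, e = 0)
    (e : Ext M ((ModuleCat.restrictScalars.{u} (rr g)).obj (TT g X)) n) : e = 0 := by
  refine shap (RingHom.id (MonoidAlgebra ℤ A)) proj_id _ (J := Qr g)
    (fun _ => (ModuleCat.restrictScalars.{u} (RingHom.id (MonoidAlgebra ℤ A))).obj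
      ((ModuleCat.restrictScalars.{u} (rr g)).obj X))
    (fun q => (ModuleCat.restrictScalars.{u} (RingHom.id (MonoidAlgebra ℤ A))).map (pr g hn X q.out))
    ?_ ?_ n M e ?_
  · intro M φ ψ h
    have h1 : ∀ q : Qr g, φ ≫ pr g hn X q.out = ψ ≫ pr g hn X q.out := fun q =>
      (ModuleCat.restrictScalars.{u} (RingHom.id (MonoidAlgebra ℤ A))).map_injective (by
        rw [Functor.map_comp, Functor.map_comp]; exact h q)
    ext m
    exact tt_ext g X (φ.hom m) (ψ.hom m) fun q => congrArg (fun f => f.hom m) (h1 q)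
  · intro M φ
    obtain ⟨ψ, hψ⟩ := tt_glue g hn X M fun q =>
      (ModuleCat.restrictScalarsId'App (RingHom.id (MonoidAlgebra ℤ A)) rfl M).inv ≫ φ q ≫
        (ModuleCat.restrictScalarsId'App (RingHom.id (MonoidAlgebra ℤ A)) rfl
          ((ModuleCat.restrictScalars.{u} (rr g)).obj X)).hom
    refine ⟨ψ, fun q => ?_⟩
    rw [← Functor.map_comp, hψ]
    rfl
  · intro q
    rw [← Ext.mapExactFunctor_mk₀, ← Ext.mapExactFunctor_comp]
    exact (congrArg (Ext.mapExactFunctor (ModuleCat.restrictScalars.{u}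
      (RingHom.id (MonoidAlgebra ℤ A)))) (h _)).trans (Ext.mapExactFunctor_zero _ _ _ _)

theorem mono_eta (g : A →* H) (X : ModuleCat.{u} (MonoidAlgebra ℤ H)) : Mono (eta g X) := by
  haveI : Mono ((ModuleCat.restrictScalars.{u} (rr g)).map (eta g X)) := by
    have : Mono ((ModuleCat.restrictScalars.{u} (rr g)).map (eta g X) ≫ evo g X) := by
      rw [eta_evo]; infer_instance
    exact mono_of_mono _ (evo g X)
  exact (ModuleCat.restrictScalars.{u} (rr g)).mono_of_mono_map this

/-- the sequence `0 → X → T X → T X / X → 0` -/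
noncomputable abbrev SC (g : A →* H) (X : ModuleCat.{u} (MonoidAlgebra ℤ H)) :
    ShortComplex (ModuleCat.{u} (MonoidAlgebra ℤ H)) :=
  ShortComplex.mk (eta g X) (cokernel.π (eta g X)) (cokernel.condition _)

theorem sc_exact (g : A →* H) (X : ModuleCat.{u} (MonoidAlgebra ℤ H)) : (SC g X).ShortExact := by
  haveI := mono_eta g X
  exact { exact := ShortComplex.exact_of_g_is_cokernel _ (cokernelIsCokernel _) }

theorem split_zero {S : ShortComplex (ModuleCat.{u} (MonoidAlgebra ℤ A))} (hS : S.ShortExact)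
    (r : S.X₂ ⟶ S.X₁) (hr : S.f ≫ r = 𝟙 _) (M : ModuleCat.{u} (MonoidAlgebra ℤ A)) (n : ℕ)
    (h : ∀ e : Ext M S.X₂ n, e = 0) (e : Ext M S.X₃ n) : e = 0 := by
  have h1 : hS.extClass = 0 := by
    have h3 : hS.extClass.comp ((Ext.mk₀ S.f).comp (Ext.mk₀ r) (zero_add 0)) (add_zero 1) =
        hS.extClass := by
      rw [Ext.mk₀_comp_mk₀, hr, Ext.comp_mk₀_id]
    rw [← h3, ← Ext.comp_assoc_of_third_deg_zero, hS.extClass_comp, Ext.zero_comp]
  obtain ⟨x, hx⟩ := Ext.covariant_sequence_exact₃ M hS e rfl (by rw [h1, Ext.comp_zero])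
  rw [← hx, h x, Ext.zero_comp]

theorem res_coker_zero (g : A →* H)
    (hn : ∀ (x : H) (a : A), ∃ a' : A, x * g a * x⁻¹ = g a')
    (X : ModuleCat.{u} (MonoidAlgebra ℤ H)) (M : ModuleCat.{u} (MonoidAlgebra ℤ A)) (n : ℕ)
    (h : ∀ e : Ext M ((ModuleCat.restrictScalars.{u} (rr g)).obj X) n, e = 0)
    (e : Ext M ((ModuleCat.restrictScalars.{u} (rr g)).obj (cokernel (eta g X))) n) : e = 0 := by
  exact split_zero ((sc_exact g X).map_of_exact (ModuleCat.restrictScalars.{u} (rr g))) (evo g X)
    (eta_evo g X) M n (res_TT_zero g hn X M n h) e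

/-- inflation and restriction: vanishing for `A` up to degree `n` gives vanishing for `H` up to
degree `n` and injectivity of the restriction in degree `n`. -/
theorem infl (g : A →* H) (hg : Function.Injective g)
    (hn : ∀ (x : H) (a : A), ∃ a' : A, x * g a * x⁻¹ = g a') (M : ModuleCat.{u} (MonoidAlgebra ℤ H)) :
    ∀ (n : ℕ) (X : ModuleCat.{u} (MonoidAlgebra ℤ H)),
      (∀ i < n, ∀ e : Ext ((ModuleCat.restrictScalars.{u} (rr g)).obj M)
        ((ModuleCat.restrictScalars.{u} (rr g)).obj X) i, e = 0) →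
      (∀ i < n, ∀ e : Ext M X i, e = 0) ∧
      (∀ e : Ext M X n, e.mapExactFunctor (ModuleCat.restrictScalars.{u} (rr g)) = 0 → e = 0) := by
  intro n
  induction n with
  | zero =>
    intro X _
    refine ⟨fun i hi => (Nat.not_lt_zero i hi).elim, fun e he => ?_⟩
    obtain ⟨φ, rfl⟩ := (Ext.mk₀_bijective M X).2 e
    rw [Ext.mapExactFunctor_mk₀] at he
    have h1 : (ModuleCat.restrictScalars.{u} (rr g)).map φ = 0 :=
      (Ext.mk₀_bijective _ _).1 (by rw [he, Ext.mk₀_zero])
    have h2 : φ = 0 := (ModuleCat.restrictScalars.{u} (rr g)).map_injective (by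
      rw [h1, Functor.map_zero])
    rw [h2, Ext.mk₀_zero]
  | succ n ih =>
    intro X hX
    obtain ⟨h1, h2⟩ := ih (cokernel (eta g X)) fun i hi e =>
      res_coker_zero g hn X _ i (hX i (Nat.lt_succ_of_lt hi)) e
    have h3 : ∀ i < n + 1, ∀ e : Ext M (cokernel (eta g X)) i, e = 0 := by
      intro i hi e
      rcases Nat.lt_succ_iff_lt_or_eq.1 hi with h | rfl
      · exact h1 i h e
      · exact h2 e (res_coker_zero g hn X _ i (hX i (Nat.lt_succ_self i)) _)
    have key : ∀ i ≤ n + 1, ∀ e : Ext M X i,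
        e.mapExactFunctor (ModuleCat.restrictScalars.{u} (rr g)) = 0 → e = 0 := by
      intro i hi e he
      have h4 := comp_eta g hg M X i e he
      cases i with
      | zero =>
        obtain ⟨φ, rfl⟩ := (Ext.mk₀_bijective M X).2 e
        rw [Ext.mk₀_comp_mk₀] at h4
        have h5 : φ ≫ eta g X = 0 := (Ext.mk₀_bijective _ _).1 (by rw [h4, Ext.mk₀_zero])
        haveI := mono_eta g X
        have h6 : φ = 0 := (cancel_mono (eta g X)).1 (by rw [h5, zero_comp])
        rw [h6, Ext.mk₀_zero]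
      | succ j =>
        obtain ⟨x, hx⟩ := Ext.covariant_sequence_exact₁ M (sc_exact g X) e h4 rfl
        rw [← hx, h3 j (by omega) x, Ext.zero_comp]
    exact ⟨fun i hi e => key i (le_of_lt hi) e (hX i hi _), fun e he => key (n + 1) le_rfl e he⟩

end Pool.Agent.Helper317.Coh
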