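import Mathlib
import Pool.Agent.Helper317.Coh.Infl

set_option autoImplicit false
set_option linter.style.haveILetI false
set_option linter.unusedSectionVars false

/-!
# Supports of extension classes with coefficients in a group ring
-/

namespace Pool.Agent.Helper317.Coh

open CategoryTheory Abelian Limits MonoidAlgebra

universe u

variable {A H G : Type u} [Group A] [Group H] [Group G]

open Classical in
/-- restriction of the support to a subset -/
noncomputable def pS (S : Set G) : MonoidAlgebra ℤ G →+ MonoidAlgebra ℤ G :=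
  (Finsupp.liftAddHom fun x : G =>
    if x ∈ S then
      ({ toFun := fun r : ℤ => single x r
         map_zero' := by simp
         map_add' := fun a b => by simp } : ℤ →+ MonoidAlgebra ℤ G)
    else 0).comp (coeffAddEquiv (R := ℤ) (M := G)).toAddMonoidHom

theorem pS_mem (S : Set G) (x : G) (h : x ∈ S) (r : ℤ) : pS S (single x r) = single x r := by
  simp [pS, h]

theorem pS_not_mem (S : Set G) (x : G) (h : x ∉ S) (r : ℤ) : pS S (single x r) = 0 := by
  simp [pS, h]

theorem pS_shift (S T : Set G) (h : G) (hT : ∀ x, h * x ∈ T ↔ x ∈ S) (r : ℤ) (y : MonoidAlgebra ℤ G) :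
    pS T (single h r * y) = single h r * pS S y := by
  induction y using MonoidAlgebra.induction_linear with
  | zero => simp
  | add a b ha hb => rw [mul_add, map_add, map_add, ha, hb, mul_add]
  | single x s =>
    by_cases hx : x ∈ S
    · rw [pS_mem S x hx, single_mul_single, pS_mem T _ ((hT x).2 hx)]
    · rw [pS_not_mem S x hx, single_mul_single, pS_not_mem T _ (fun hc => hx ((hT x).1 hc)), mul_zero]

theorem pS_compl (S : Set G) (y : MonoidAlgebra ℤ G) : pS S y + pS Sᶜ y = y := by
  induction y using MonoidAlgebra.induction_linear with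
  | zero => simp
  | add a b ha hb =>
    rw [map_add, map_add]
    conv_rhs => rw [← ha, ← hb]
    abel
  | single x s =>
    by_cases hx : x ∈ S
    · rw [pS_mem S x hx, pS_not_mem Sᶜ x (fun hc => hc hx), add_zero]
    · rw [pS_not_mem S x hx, pS_mem Sᶜ x hx, zero_add]

theorem pS_sub (S T : Set G) (h : S ⊆ T) (y : MonoidAlgebra ℤ G) : pS S (pS T y) = pS S y := by
  induction y using MonoidAlgebra.induction_linear with
  | zero => simp
  | add a b ha hb => rw [map_add, map_add, ha, hb, map_add]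
  | single x s =>
    by_cases hx : x ∈ T
    · rw [pS_mem T x hx]
    · rw [pS_not_mem T x hx, pS_not_mem S x (fun hc => hx (h hc)), map_zero]

theorem pS_supp (S : Set G) (y : MonoidAlgebra ℤ G) (h : (y.coeff.support : Set G) ⊆ S) :
    pS S y = y := by
  have h2 : y = ∑ u ∈ y.coeff.support, single u (y.coeff u) := by
    conv_lhs => rw [← MonoidAlgebra.sum_coeff_single y]
    rfl
  have h3 : pS S y = ∑ u ∈ y.coeff.support, pS S (single u (y.coeff u)) := by
    conv_lhs => rw [h2]
    rw [map_sum]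
  rw [h3]
  conv_rhs => rw [h2]
  refine Finset.sum_congr rfl fun u hu => ?_
  exact pS_mem S u (h hu) _

/-- the group ring of `G` as a module over the group ring of `H` -/
noncomputable abbrev XX (f : H →* G) : ModuleCat.{u} (MonoidAlgebra ℤ H) :=
  (ModuleCat.restrictScalars.{u} (rr f)).obj
    (ModuleCat.of (MonoidAlgebra ℤ G) (MonoidAlgebra ℤ G))

theorem pS_rr (f : H →* G) (g : A →* H) (S : Set G)
    (hS : ∀ (a : A) (x : G), f (g a) * x ∈ S ↔ x ∈ S) (c : MonoidAlgebra ℤ A)
    (y : MonoidAlgebra ℤ G) : pS S (rr f (rr g c) * y) = rr f (rr g c) * pS S y := by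
  induction c using MonoidAlgebra.induction_linear with
  | zero => rw [map_zero, map_zero, zero_mul, map_zero, zero_mul]
  | add a b ha hb => rw [map_add, map_add, add_mul, map_add, ha, hb, add_mul]
  | single a r => rw [rr_single, rr_single]; exact pS_shift S S _ (hS a) r y

/-- the endomorphism restricting supports to a set invariant under `A` -/
noncomputable def pi (f : H →* G) (g : A →* H) (S : Set G)
    (hS : ∀ (a : A) (x : G), f (g a) * x ∈ S ↔ x ∈ S) :
    (ModuleCat.restrictScalars.{u} (rr g)).obj (XX f) ⟶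
      (ModuleCat.restrictScalars.{u} (rr g)).obj (XX f) :=
  ModuleCat.ofHom (X := (ModuleCat.restrictScalars.{u} (rr g)).obj (XX f))
    (Y := (ModuleCat.restrictScalars.{u} (rr g)).obj (XX f))
    { toFun := fun y => pS S (show MonoidAlgebra ℤ G from y)
      map_add' := fun x y => map_add (pS S) (show MonoidAlgebra ℤ G from x) y
      map_smul' := fun c y => pS_rr f g S hS c y }

/-- the underlying function of a morphism into the restricted group ring -/
noncomputable def undX (f : H →* G) (g : A →* H) (M : ModuleCat.{u} (MonoidAlgebra ℤ A))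
    (φ : M ⟶ (ModuleCat.restrictScalars.{u} (rr g)).obj (XX f)) (m : M) : MonoidAlgebra ℤ G := φ.hom m

theorem undX_add (f : H →* G) (g : A →* H) (M : ModuleCat.{u} (MonoidAlgebra ℤ A))
    (φ : M ⟶ (ModuleCat.restrictScalars.{u} (rr g)).obj (XX f)) (m m' : M) :
    undX f g M φ (m + m') = undX f g M φ m + undX f g M φ m' := φ.hom.map_add m m'

theorem undX_zero (f : H →* G) (g : A →* H) (M : ModuleCat.{u} (MonoidAlgebra ℤ A))
    (φ : M ⟶ (ModuleCat.restrictScalars.{u} (rr g)).obj (XX f)) :
    undX f g M φ 0 = 0 := φ.hom.map_zero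

theorem undX_smul (f : H →* G) (g : A →* H) (M : ModuleCat.{u} (MonoidAlgebra ℤ A))
    (φ : M ⟶ (ModuleCat.restrictScalars.{u} (rr g)).obj (XX f)) (c : MonoidAlgebra ℤ A) (m : M) :
    undX f g M φ (c • m) = rr f (rr g c) * undX f g M φ m := φ.hom.map_smul c m

theorem undX_ext (f : H →* G) (g : A →* H) (M : ModuleCat.{u} (MonoidAlgebra ℤ A))
    (φ ψ : M ⟶ (ModuleCat.restrictScalars.{u} (rr g)).obj (XX f))
    (h : ∀ m, undX f g M φ m = undX f g M ψ m) : φ = ψ := by
  ext m
  exact h m

/-- the `A`-invariant set generated by a finite set -/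
def orb (f : H →* G) (g : A →* H) (F : Finset G) : Set G :=
  {x | ∃ a : A, ∃ y ∈ F, x = f (g a) * y}

theorem orb_inv (f : H →* G) (g : A →* H) (F : Finset G) (a : A) (x : G) :
    f (g a) * x ∈ orb f g F ↔ x ∈ orb f g F := by
  constructor
  · rintro ⟨b, y, hy, h⟩
    refine ⟨a⁻¹ * b, y, hy, ?_⟩
    rw [map_mul, map_mul, mul_assoc, ← h, map_inv, map_inv, inv_mul_cancel_left]
  · rintro ⟨b, y, hy, rfl⟩
    exact ⟨a * b, y, hy, by rw [map_mul, map_mul, mul_assoc]⟩

theorem compl_inv (f : H →* G) (g : A →* H) (S : Set G)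
    (hS : ∀ (a : A) (x : G), f (g a) * x ∈ S ↔ x ∈ S) (a : A) (x : G) :
    f (g a) * x ∈ Sᶜ ↔ x ∈ Sᶜ := not_congr (hS a x)

/-- finite support of extension classes -/
theorem fin_supp (f : H →* G) (g : A →* H) [IsNoetherianRing (MonoidAlgebra ℤ A)] (n : ℕ)
    (M : ModuleCat.{u} (MonoidAlgebra ℤ A)) (hM : Module.Finite (MonoidAlgebra ℤ A) M)
    (e : Ext M ((ModuleCat.restrictScalars.{u} (rr g)).obj (XX f)) n) :
    ∃ F : Finset G, e.comp (Ext.mk₀ (pi f g (orb f g F) (orb_inv f g F))) (add_zero n) = e := by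
  classical
  refine fsupp _ (fun F : Finset G => pi f g (orb f g F) (orb_inv f g F)) ?_ n M hM e
  intro M hM φ
  obtain ⟨T, hT⟩ := hM.fg_top
  let F : Finset G := T.biUnion fun m => (undX f g M φ m).coeff.support
  refine ⟨F, undX_ext f g M _ _ fun m => ?_⟩
  show pS (orb f g F) (undX f g M φ m) = undX f g M φ m
  have hm : m ∈ Submodule.span (MonoidAlgebra ℤ A) (T : Set M) := by rw [hT]; trivial
  induction hm using Submodule.span_induction with
  | mem m hm =>
    refine pS_supp _ _ fun x hx => ⟨1, x, ?_, by rw [map_one, map_one, one_mul]⟩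
    exact Finset.mem_biUnion.2 ⟨m, hm, hx⟩
  | zero => rw [undX_zero, map_zero]
  | add x y _ _ hx hy => rw [undX_add, map_add, hx, hy]
  | smul c x _ hx => rw [undX_smul, pS_rr f g _ (orb_inv f g F), hx]

theorem cj_smul (f : H →* G) (g : A →* H)
    (hn : ∀ (x : H) (a : A), ∃ a' : A, x * g a * x⁻¹ = g a') (h : H)
    (M : ModuleCat.{u} (MonoidAlgebra ℤ H)) (F : M → MonoidAlgebra ℤ G) (hF0 : F 0 = 0)
    (hFa : ∀ x y, F (x + y) = F x + F y)
    (hF : ∀ (c : MonoidAlgebra ℤ A) (m : M), F (rr g c • m) = rr f (rr g c) * F m)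
    (c : MonoidAlgebra ℤ A) (m : M) :
    (single (f h) (1 : ℤ) : MonoidAlgebra ℤ G) *
        F ((single h⁻¹ (1 : ℤ) : MonoidAlgebra ℤ H) • (rr g c • m)) =
      rr f (rr g c) * ((single (f h) (1 : ℤ) : MonoidAlgebra ℤ G) *
        F ((single h⁻¹ (1 : ℤ) : MonoidAlgebra ℤ H) • m)) := by
  induction c using MonoidAlgebra.induction_linear with
  | zero => rw [map_zero, map_zero, zero_smul, smul_zero, hF0, mul_zero, zero_mul]
  | add a b ha hb => rw [map_add, map_add, add_smul, smul_add, hFa, mul_add, ha, hb, add_mul]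
  | single a r =>
    obtain ⟨a', ha'⟩ := hn h⁻¹ a
    have e1 : (single h⁻¹ (1 : ℤ) : MonoidAlgebra ℤ H) • (rr g (single a r) • m) =
        rr g (single a' r) • ((single h⁻¹ (1 : ℤ) : MonoidAlgebra ℤ H) • m) := by
      rw [smul_smul, smul_smul, rr_single, rr_single, single_mul_single, single_mul_single, ← ha',
        one_mul, mul_one]
      congr 2
      group
    rw [e1, hF, ← mul_assoc, ← mul_assoc]
    congr 1
    rw [rr_single, rr_single, rr_single, rr_single, single_mul_single, single_mul_single, ← map_mul,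
      ← map_mul, ← ha', one_mul, mul_one]
    congr 2
    group

/-- conjugation of a homomorphism by an element `h` of `H` -/
noncomputable def cj (f : H →* G) (g : A →* H)
    (hn : ∀ (x : H) (a : A), ∃ a' : A, x * g a * x⁻¹ = g a') (h : H)
    (M : ModuleCat.{u} (MonoidAlgebra ℤ H))
    (φ : (ModuleCat.restrictScalars.{u} (rr g)).obj M ⟶
      (ModuleCat.restrictScalars.{u} (rr g)).obj (XX f)) :
    (ModuleCat.restrictScalars.{u} (rr g)).obj M ⟶
      (ModuleCat.restrictScalars.{u} (rr g)).obj (XX f) :=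
  ModuleCat.ofHom (X := (ModuleCat.restrictScalars.{u} (rr g)).obj M)
    (Y := (ModuleCat.restrictScalars.{u} (rr g)).obj (XX f))
    { toFun := fun m => (single (f h) (1 : ℤ) : MonoidAlgebra ℤ G) *
        undX f g _ φ ((single h⁻¹ (1 : ℤ) : MonoidAlgebra ℤ H) • (show M from m) : M)
      map_add' := fun x y => by
        show (single (f h) (1 : ℤ) : MonoidAlgebra ℤ G) *
          undX f g _ φ ((single h⁻¹ (1 : ℤ) : MonoidAlgebra ℤ H) • ((show M from x) + (show M from y)) : M) = _
        rw [smul_add]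
        refine (congrArg (fun z => (single (f h) (1 : ℤ) : MonoidAlgebra ℤ G) * z)
          (undX_add f g _ φ _ _)).trans ?_
        exact mul_add _ _ _
      map_smul' := fun c m => by
        show (single (f h) (1 : ℤ) : MonoidAlgebra ℤ G) *
          undX f g _ φ ((single h⁻¹ (1 : ℤ) : MonoidAlgebra ℤ H) • (rr g c • (show M from m)) : M) =
          rr f (rr g c) * ((single (f h) (1 : ℤ) : MonoidAlgebra ℤ G) *
          undX f g _ φ ((single h⁻¹ (1 : ℤ) : MonoidAlgebra ℤ H) • (show M from m) : M))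
        exact cj_smul f g hn h M (fun m => undX f g _ φ m) (undX_zero f g _ φ) (undX_add f g _ φ)
          (undX_smul f g _ φ) c m }

theorem cj_apply (f : H →* G) (g : A →* H)
    (hn : ∀ (x : H) (a : A), ∃ a' : A, x * g a * x⁻¹ = g a') (h : H)
    (M : ModuleCat.{u} (MonoidAlgebra ℤ H))
    (φ : (ModuleCat.restrictScalars.{u} (rr g)).obj M ⟶
      (ModuleCat.restrictScalars.{u} (rr g)).obj (XX f)) (m : M) :
    undX f g _ (cj f g hn h M φ) m = (single (f h) (1 : ℤ) : MonoidAlgebra ℤ G) *
        undX f g _ φ ((single h⁻¹ (1 : ℤ) : MonoidAlgebra ℤ H) • m) := rfl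

/-- The classes restricted from `H` to a normal subgroup `A` of infinite index with Noetherian group
ring, with coefficients in the group ring of `G`, vanish. -/
theorem res_zero (f : H →* G) (g : A →* H) (hg : Function.Injective g)
    (hn : ∀ (x : H) (a : A), ∃ a' : A, x * g a * x⁻¹ = g a')
    [IsNoetherianRing (MonoidAlgebra ℤ A)]
    (hinf : ∀ F : Finset G, ∃ h : H, ∀ y ∈ F, ∀ y' ∈ F, ∀ a b : A, f (h * g a) * y ≠ f (g b) * y')
    (M : ModuleCat.{u} (MonoidAlgebra ℤ H))
    (hM : Module.Finite (MonoidAlgebra ℤ A) ((ModuleCat.restrictScalars.{u} (rr g)).obj M))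
    (n : ℕ) (e : Ext M (XX f) n) : e.mapExactFunctor (ModuleCat.restrictScalars.{u} (rr g)) = 0 := by
  classical
  set a := e.mapExactFunctor (ModuleCat.restrictScalars.{u} (rr g)) with ha
  obtain ⟨F, hF⟩ := fin_supp f g n _ hM a
  obtain ⟨h, hh⟩ := hinf F
  have h1 : a.comp (Ext.mk₀ (pi f g (orb f g F)ᶜ (compl_inv f g _ (orb_inv f g F)))) (add_zero n) = 0 := by
    have h2 : pi f g (orb f g F) (orb_inv f g F) +
        pi f g (orb f g F)ᶜ (compl_inv f g _ (orb_inv f g F)) = 𝟙 _ :=
      undX_ext f g _ _ _ fun m => pS_compl (orb f g F) m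
    have h3 : a.comp (Ext.mk₀ (pi f g (orb f g F) (orb_inv f g F) +
        pi f g (orb f g F)ᶜ (compl_inv f g _ (orb_inv f g F)))) (add_zero n) = a := by
      rw [h2, Ext.comp_mk₀_id]
    rw [Ext.mk₀_add, Ext.comp_add, hF] at h3
    exact left_eq_add.1 h3.symm
  have h2 := twist (rr g) (proj_res g hg) (XX f) _ (fun M φ => cj f g hn h M φ) ?_ ?_
    (pi f g (orb f g F)ᶜ (compl_inv f g _ (orb_inv f g F))) n M e h1
  · -- the two supports are disjoint
    let T : Set G := {x | (f h)⁻¹ * x ∈ (orb f g F)ᶜ}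
    have hT : orb f g F ⊆ T := by
      rintro x ⟨b, y', hy', rfl⟩ ⟨c, y, hy, hc⟩
      refine hh y hy y' hy' c b ?_
      rw [map_mul, mul_assoc, ← hc, mul_inv_cancel_left]
    have h3 : cj f g hn h (XX f) (pi f g (orb f g F)ᶜ (compl_inv f g _ (orb_inv f g F))) ≫
        pi f g (orb f g F) (orb_inv f g F) = pi f g (orb f g F) (orb_inv f g F) := by
      have key : ∀ y : MonoidAlgebra ℤ G, pS (orb f g F) ((single (f h) (1 : ℤ) : MonoidAlgebra ℤ G) *
          pS (orb f g F)ᶜ (rr f (single h⁻¹ (1 : ℤ)) * y)) = pS (orb f g F) y := by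
        intro y
        rw [← pS_shift (orb f g F)ᶜ T (f h) (fun x => by
          show (f h)⁻¹ * (f h * x) ∈ (orb f g F)ᶜ ↔ x ∈ (orb f g F)ᶜ
          rw [inv_mul_cancel_left]), rr_single, ← mul_assoc, single_mul_single, map_inv,
          mul_inv_cancel, mul_one, ← one_def, one_mul]
        exact pS_sub _ _ hT _
      exact undX_ext f g _ _ _ fun m => key m
    rw [← hF, ← h3, ← Ext.mk₀_comp_mk₀, ← Ext.comp_assoc_of_third_deg_zero, h2, Ext.zero_comp]
  · intro M
    refine undX_ext f g _ _ _ fun m => ?_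
    exact mul_zero _
  · intro M M' φ θ
    refine undX_ext f g _ _ _ fun m => ?_
    show (single (f h) (1 : ℤ) : MonoidAlgebra ℤ G) *
        undX f g _ θ (φ.hom ((single h⁻¹ (1 : ℤ) : MonoidAlgebra ℤ H) • (show M from m))) =
      (single (f h) (1 : ℤ) : MonoidAlgebra ℤ G) *
        undX f g _ θ ((single h⁻¹ (1 : ℤ) : MonoidAlgebra ℤ H) • (φ.hom (show M from m)))
    rw [map_smul]

end Pool.Agent.Helper317.Coh
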