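import Mathlib
import Pool.Agent.Helper317.Coh.Supp
import Pool.Agent.Helper317.Sections

set_option autoImplicit false
set_option linter.style.haveILetI false

/-!
# Vanishing of cohomology with group ring coefficients along subnormal chains
-/

namespace Pool.Agent.Helper317.Coh

open CategoryTheory Abelian Limits MonoidAlgebra

universe u

variable {A H G : Type u} [Group A] [Group H] [Group G]

/-- the augmentation: the sum of the coefficients -/
noncomputable def eps (H : Type u) [Group H] : MonoidAlgebra ℤ H →+* ℤ :=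
  (MonoidAlgebra.lift ℤ ℤ H (1 : H →* ℤ)).toRingHom

theorem eps_single (h : H) (r : ℤ) : eps H (single h r) = r := by
  show MonoidAlgebra.lift ℤ ℤ H (1 : H →* ℤ) (single h r) = r
  rw [MonoidAlgebra.lift_single]
  simp

/-- the trivial module of the integral group ring of `H`: the additive group of the integers, on
which the group ring acts through the augmentation -/
noncomputable def triv (H : Type u) [Group H] : ModuleCat.{u} (MonoidAlgebra ℤ H) :=
  (ModuleCat.restrictScalars.{u} (eps H)).obj (ModuleCat.of ℤ (ULift.{u} ℤ))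

theorem eps_comp (g : A →* H) : eps A = (eps H).comp (rr g) := by
  refine RingHom.ext fun x => ?_
  induction x using MonoidAlgebra.induction_linear with
  | zero => rw [map_zero, map_zero]
  | add a b ha hb => rw [map_add, map_add, ha, hb]
  | single a r => rw [RingHom.comp_apply, rr_single, eps_single, eps_single]

theorem rr_comp (f : H →* G) (g : A →* H) : rr (f.comp g) = (rr f).comp (rr g) := by
  refine RingHom.ext fun x => ?_
  induction x using MonoidAlgebra.induction_linear with
  | zero => rw [map_zero, map_zero]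
  | add a b ha hb => rw [map_add, map_add, ha, hb]
  | single a r => rw [RingHom.comp_apply, rr_single, rr_single, rr_single]; rfl

theorem rr_id : rr (MonoidHom.id G) = RingHom.id _ := by
  refine RingHom.ext fun x => ?_
  induction x using MonoidAlgebra.induction_linear with
  | zero => rw [map_zero, map_zero]
  | add a b ha hb => rw [map_add, map_add, ha, hb]
  | single a r => rw [rr_single]; rfl

theorem iso_zero {R : Type u} [Ring R] {P P' Q Q' : ModuleCat.{u} R} (α : P ≅ P') (β : Q ≅ Q')
    (n : ℕ) (h : ∀ e : Ext P Q n, e = 0) (e : Ext P' Q' n) : e = 0 := by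
  have h1 : (Ext.mk₀ α.hom).comp (e.comp (Ext.mk₀ β.inv) (add_zero n)) (zero_add n) = 0 := h _
  have h2 : e.comp (Ext.mk₀ β.inv) (add_zero n) = 0 := by
    have h3 := congrArg (fun z => (Ext.mk₀ α.inv).comp z (zero_add n)) h1
    simp only [Ext.mk₀_comp_mk₀_assoc, Iso.inv_hom_id, Ext.mk₀_id_comp, Ext.comp_zero] at h3
    exact h3
  have h4 : (e.comp (Ext.mk₀ β.inv) (add_zero n)).comp (Ext.mk₀ β.hom) (add_zero n) = e := by
    rw [Ext.comp_assoc_of_third_deg_zero, Ext.mk₀_comp_mk₀, Iso.inv_hom_id, Ext.comp_mk₀_id]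
  rw [← h4, h2, Ext.zero_comp]

/-- vanishing below degree `n` of the cohomology of `H` with coefficients in the group ring of `G` -/
def Van (n : ℕ) (f : H →* G) : Prop := ∀ i < n, ∀ e : Ext (triv H) (XX f) i, e = 0

theorem van_res {n : ℕ} (f : H →* G) (g : A →* H) (h : Van n (f.comp g)) :
    ∀ i < n, ∀ e : Ext ((ModuleCat.restrictScalars.{u} (rr g)).obj (triv H))
      ((ModuleCat.restrictScalars.{u} (rr g)).obj (XX f)) i, e = 0 := by
  intro i hi
  exact iso_zero (ModuleCat.restrictScalarsComp'App (rr g) (eps H) (eps A) (eps_comp g) _)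
    (ModuleCat.restrictScalarsComp'App (rr g) (rr f) (rr (f.comp g)) (rr_comp f g) _) i (h i hi)

theorem van_step {n : ℕ} (f : H →* G) (g : A →* H) (hg : Function.Injective g)
    (hn : ∀ (x : H) (a : A), ∃ a' : A, x * g a * x⁻¹ = g a') (h : Van n (f.comp g)) : Van n f :=
  (infl g hg hn (triv H) n (XX f) (van_res f g h)).1

theorem finite_triv (g : A →* H) :
    Module.Finite (MonoidAlgebra ℤ A) ((ModuleCat.restrictScalars.{u} (rr g)).obj (triv H)) := by
  refine ⟨⟨{(show ((ModuleCat.restrictScalars.{u} (rr g)).obj (triv H)) from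
    (ULift.up (1 : ℤ) : ULift.{u} ℤ))}, ?_⟩⟩
  rw [eq_top_iff]
  intro z _
  rw [Finset.coe_singleton, Submodule.mem_span_singleton]
  refine ⟨single 1 (ULift.down (show ULift.{u} ℤ from z)), ?_⟩
  show eps H (rr g (single 1 (ULift.down (show ULift.{u} ℤ from z)))) • (ULift.up (1 : ℤ) : ULift.{u} ℤ) =
    (show ULift.{u} ℤ from z)
  rw [rr_single, eps_single]
  apply ULift.down_injective
  show (ULift.down (show ULift.{u} ℤ from z)) • (1 : ℤ) = _
  rw [smul_eq_mul, mul_one]

theorem van_step_inf {n : ℕ} (f : H →* G) (g : A →* H) (hg : Function.Injective g)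
    (hn : ∀ (x : H) (a : A), ∃ a' : A, x * g a * x⁻¹ = g a')
    [IsNoetherianRing (MonoidAlgebra ℤ A)]
    (hinf : ∀ F : Finset G, ∃ h : H, ∀ y ∈ F, ∀ y' ∈ F, ∀ a b : A, f (h * g a) * y ≠ f (g b) * y')
    (h : Van n (f.comp g)) : Van (n + 1) f := by
  obtain ⟨h1, h2⟩ := infl g hg hn (triv H) n (XX f) (van_res f g h)
  intro i hi e
  rcases Nat.lt_succ_iff_lt_or_eq.1 hi with h3 | rfl
  · exact h1 i h3 e
  · exact h2 e (res_zero f g hg hn hinf (triv H) (finite_triv g) _ e)

/-- subnormal chains of subgroups with `n` infinite factors -/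
inductive SCh : ℕ → Subgroup G → Subgroup G → Prop
  | refl (K : Subgroup G) : SCh 0 K K
  | step {n : ℕ} {K F T : Subgroup G} : SCh n K F → Nm F T → SCh n K T
  | inf {n : ℕ} {K F T : Subgroup G} : SCh n K F → Nm F T → F.relIndex T = 0 → SCh (n + 1) K T

theorem nm_conj {F T : Subgroup G} (h : Nm F T) :
    ∀ (x : T) (a : F), ∃ a' : F, x * Subgroup.inclusion h.1 a * x⁻¹ = Subgroup.inclusion h.1 a' := by
  intro x a
  exact ⟨⟨x * a * x⁻¹, h.2 x x.2 a a.2⟩, rfl⟩

theorem hinf_of {F T : Subgroup G} (h : Nm F T) (hi : F.relIndex T = 0) (S : Finset G) :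
    ∃ x : T, ∀ y ∈ S, ∀ y' ∈ S, ∀ a b : F,
      T.subtype (x * Subgroup.inclusion h.1 a) * y ≠ T.subtype (Subgroup.inclusion h.1 b) * y' := by
  classical
  by_contra hcon
  push Not at hcon
  let D : Finset G := (S ×ˢ S).image fun p => p.2 * p.1⁻¹
  let E : Set T := {t | (t : G) ∈ D}
  have hE : E.Finite := by
    refine Set.Finite.of_finite_image (f := fun t : T => (t : G)) ?_ (Subtype.val_injective.injOn)
    refine D.finite_toSet.subset ?_
    rintro _ ⟨t, ht, rfl⟩
    exact ht
  have hsurj : Function.Surjective fun t : E => ((t : T) : T ⧸ F.subgroupOf T) := by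
    intro q
    obtain ⟨x, rfl⟩ := QuotientGroup.mk_surjective q
    obtain ⟨y, hy, y', hy', a, b, hab⟩ := hcon x
    have h1 : (x : G) * a * y = b * y' := hab
    have h2 : (b : G)⁻¹ * x * a = y' * y⁻¹ := by
      rw [eq_mul_inv_iff_mul_eq, mul_assoc, mul_assoc, ← mul_assoc (x : G), h1, inv_mul_cancel_left]
    have hbT : (b : G) ∈ T := h.1 b.2
    have haT : (a : G) ∈ T := h.1 a.2
    have h3 : (b : G)⁻¹ * x * a ∈ T := T.mul_mem (T.mul_mem (T.inv_mem hbT) x.2) haT
    refine ⟨⟨⟨(b : G)⁻¹ * x * a, h3⟩, ?_⟩, ?_⟩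
    · show (b : G)⁻¹ * x * a ∈ D
      rw [h2]
      exact Finset.mem_image.2 ⟨(y, y'), Finset.mem_product.2 ⟨hy, hy'⟩, rfl⟩
    · refine QuotientGroup.eq.2 ?_
      rw [Subgroup.mem_subgroupOf]
      show ((b : G)⁻¹ * x * a)⁻¹ * x ∈ F
      have h4 : ((b : G)⁻¹ * x * a)⁻¹ * x = (a : G)⁻¹ * ((x : G)⁻¹ * b * x) := by group
      rw [h4]
      refine F.mul_mem (F.inv_mem a.2) ?_
      have := h.2 (x : G)⁻¹ (T.inv_mem x.2) b b.2
      rwa [inv_inv] at this
  haveI : Finite E := hE.to_subtype
  have h5 : Finite (T ⧸ F.subgroupOf T) := Finite.of_surjective _ hsurj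
  exact (Subgroup.index_ne_zero_of_finite (H := F.subgroupOf T)) hi

theorem van_chain [IsNoetherianRing (MonoidAlgebra ℤ G)] {n : ℕ} {K F : Subgroup G}
    (h : SCh n K F) (m : ℕ) (hK : Van m K.subtype) : Van (m + n) F.subtype := by
  induction h with
  | refl => exact hK
  | step _ hn ih =>
    exact van_step _ (Subgroup.inclusion hn.1) (Subgroup.inclusion_injective _) (nm_conj hn) (ih hK)
  | @inf _ _ F _ _ hn hi ih =>
    haveI := noeth_sub F
    exact van_step_inf _ (Subgroup.inclusion hn.1) (Subgroup.inclusion_injective _)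
      (nm_conj hn) (hinf_of hn hi) (ih hK)

/-- Below the number of infinite factors of a subnormal chain the cohomology of `G` with
coefficients in the integral group ring vanishes. -/
theorem ext_zero_of_chain [IsNoetherianRing (MonoidAlgebra ℤ G)] {n : ℕ}
    (h : SCh n (⊥ : Subgroup G) ⊤) (i : ℕ) (hi : i < n)
    (e : Ext (triv G) (ModuleCat.of (MonoidAlgebra ℤ G) (MonoidAlgebra ℤ G)) i) : e = 0 := by
  have h1 : Van (0 + n) (⊤ : Subgroup G).subtype :=
    van_chain h 0 fun i hi => (Nat.not_lt_zero i hi).elim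
  rw [Nat.zero_add] at h1
  have h2 : Van n (MonoidHom.id G) := by
    refine van_step (MonoidHom.id G) (⊤ : Subgroup G).subtype Subtype.val_injective ?_ h1
    intro x a
    exact ⟨⟨x * a * x⁻¹, trivial⟩, rfl⟩
  exact iso_zero (Iso.refl _) (ModuleCat.restrictScalarsId'App (rr (MonoidHom.id G)) rr_id _) i
    (h2 i hi) e

end Pool.Agent.Helper317.Coh
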