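import Mathlib
import Pool.Agent.Helper317.Coh.Step
import Pool.Agent.Helper317.Primes

set_option autoImplicit false
set_option linter.style.haveILetI false

/-!
# Series with admissible factors from a bound on subnormal chains
-/

namespace Pool.Agent.Helper317

open Coh

universe u

variable {G : Type u} [Group G]

theorem Coh.SCh.trans {a b : ℕ} {K L H : Subgroup G} (h1 : SCh a K L) (h2 : SCh b L H) :
    SCh (a + b) K H := by
  induction h2 with
  | refl => exact h1
  | step _ hn ih => exact SCh.step (ih h1) hn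
  | inf _ hn hi ih => exact SCh.inf (ih h1) hn hi

theorem ser_of_no (hmax : ∀ K : Subgroup G, K.FG) (K H : Subgroup G) (hKH : Nm K H)
    (hi : ∀ L B : Subgroup G, K ≤ B → Nm B L → Nm L H → L.relIndex H ≠ 0 →
        K.relIndex B = 0 → B.relIndex L ≠ 0) : Ser K H := by
  haveI hKn : (K.subgroupOf H).Normal := by
    refine ⟨fun k hk g => ?_⟩
    rw [Subgroup.mem_subgroupOf] at hk ⊢
    exact hKH.2 g g.2 k hk
  let f : H →* H ⧸ K.subgroupOf H := QuotientGroup.mk' _
  have hf : Function.Surjective f := QuotientGroup.mk'_surjective _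
  have hinj : Function.Injective H.subtype := H.subtype_injective
  have hker : (⊥ : Subgroup (H ⧸ K.subgroupOf H)).comap f = K.subgroupOf H :=
    comap_mk_bot _
  have hK : ((⊥ : Subgroup (H ⧸ K.subgroupOf H)).comap f).map H.subtype = K := by
    rw [hker, Subgroup.subgroupOf_map_subtype]
    exact inf_eq_left.2 hKH.1
  have hH : ((⊤ : Subgroup (H ⧸ K.subgroupOf H)).comap f).map H.subtype = H := by
    rw [Subgroup.comap_top, ← MonoidHom.range_eq_map]
    exact H.range_subtype
  have htr : ∀ A B : Subgroup (H ⧸ K.subgroupOf H),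
      ((A.comap f).map H.subtype).relIndex ((B.comap f).map H.subtype) = A.relIndex B := by
    intro A B
    rw [Subgroup.relIndex_map_map_of_injective _ _ hinj, relIndex_comap_comap f hf]
  have hser : Ser (⊥ : Subgroup (H ⧸ K.subgroupOf H)) ⊤ := by
    refine serA (fg_of_surj f hf (fg_of_inj H.subtype hinj hmax)) ?_
    intro L hLn hLi B hB
    have e1 : Nm ((B.comap f).map H.subtype) ((L.comap f).map H.subtype) :=
      (hB.comap f).map H.subtype
    have e2 : Nm ((L.comap f).map H.subtype) H := by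
      have := ((nm_top hLn).comap f).map H.subtype
      rwa [hH] at this
    have e3 : K ≤ (B.comap f).map H.subtype := by
      conv_lhs => rw [← hK]
      exact Subgroup.map_mono (Subgroup.comap_mono bot_le)
    have e4 : ((L.comap f).map H.subtype).relIndex H ≠ 0 := by
      have := htr L ⊤
      rw [hH] at this
      rw [this, Subgroup.relIndex_top_right]
      exact hLi.index_ne_zero
    by_cases e5 : K.relIndex ((B.comap f).map H.subtype) = 0
    · right
      have e6 := hi _ _ e3 e1 e2 e4 e5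
      rw [htr] at e6
      refine ⟨?_⟩
      rw [← Subgroup.relIndex_top_right]
      refine Subgroup.relIndex_ne_zero_trans e6 ?_
      rw [Subgroup.relIndex_top_right]
      exact hLi.index_ne_zero
    · left
      have e6 := htr ⊥ B
      rw [hK] at e6
      rw [e6, Subgroup.relIndex_bot_left] at e5
      exact Nat.finite_of_card_ne_zero e5
  have h1 := (hser.comap f hf).map H.subtype hinj
  rwa [hK, hH] at h1

theorem ser_main' (hmax : ∀ K : Subgroup G, K.FG) : ∀ (n : ℕ) (K H : Subgroup G), Nm K H →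
    ¬ SCh n K H → Ser K H := by
  intro n
  induction n with
  | zero => intro K H h1 h2; exact (h2 (SCh.step (SCh.refl K) h1)).elim
  | succ n ih =>
    intro K H hKH hno
    by_cases hi : ∃ L B : Subgroup G, K ≤ B ∧ Nm B L ∧ Nm L H ∧ L.relIndex H ≠ 0 ∧
        K.relIndex B = 0 ∧ B.relIndex L = 0
    · obtain ⟨L, B, hKB, hBL, hLH, hLi, hKBi, hBLi⟩ := hi
      have hBH : B ≤ H := hBL.1.trans hLH.1
      have hKBn : Nm K B := ⟨hKB, fun h hh k hk => hKH.2 h (hBH hh) k hk⟩
      have h1 : Ser K B := ih K B hKBn fun hc => hno (SCh.step (SCh.inf hc hBL hBLi) hLH)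
      have h2 : Ser B L := by
        refine ih B L hBL fun hc => hno ?_
        have h3 : SCh 1 K B := SCh.inf (SCh.refl K) hKBn hKBi
        have h4 := h3.trans hc
        rw [Nat.add_comm] at h4
        exact SCh.step h4 hLH
      exact Ser.step (Ser.trans h1 h2) ⟨hLH, Or.inl hLi⟩
    · push Not at hi
      exact ser_of_no hmax K H hKH hi

theorem sch_of_chain (c : ℕ → Subgroup G) (k : ℕ)
    (hc : ∀ i < k, c i ≤ c (i + 1) ∧ ((c i).subgroupOf (c (i + 1))).Normal) :
    SCh {i : ℕ | i < k ∧ (c i).relIndex (c (i + 1)) = 0}.ncard (c 0) (c k) := by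
  classical
  have key : ∀ j ≤ k, SCh ((Finset.range j).filter fun i => (c i).relIndex (c (i + 1)) = 0).card
      (c 0) (c j) := by
    intro j
    induction j with
    | zero => intro _; exact SCh.refl _
    | succ j ih =>
      intro hj
      obtain ⟨h1, h2⟩ := hc j (by omega)
      have h3 := nm_of_normal h1 h2
      rw [Finset.range_add_one, Finset.filter_insert]
      split_ifs with h
      · rw [Finset.card_insert_of_notMem (by simp)]
        exact SCh.inf (ih (by omega)) h3 h
      · exact SCh.step (ih (by omega)) h3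
  have h1 : {i : ℕ | i < k ∧ (c i).relIndex (c (i + 1)) = 0} =
      ((Finset.range k).filter fun i => (c i).relIndex (c (i + 1)) = 0 : Finset ℕ) := by
    ext i
    simp
  rw [h1, Set.ncard_coe_finset]
  exact key k le_rfl

theorem coh_series [IsNoetherianRing (MonoidAlgebra ℤ G)] (n : ℕ)
    (hn : ∃ e : CategoryTheory.Abelian.Ext (triv G)
      (ModuleCat.of (MonoidAlgebra ℤ G) (MonoidAlgebra ℤ G)) n, e ≠ 0) :
    (∀ (k : ℕ) (c : ℕ → Subgroup G), c 0 = ⊥ → c k = ⊤ →
      (∀ i < k, c i ≤ c (i + 1) ∧ ((c i).subgroupOf (c (i + 1))).Normal) →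
      {i : ℕ | i < k ∧ (c i).relIndex (c (i + 1)) = 0}.ncard ≤ n) ∧
    ∃ (k : ℕ) (c : ℕ → Subgroup G), c 0 = ⊥ ∧ c k = ⊤ ∧
      (∀ i < k, c i ≤ c (i + 1) ∧ ∃ _ : ((c i).subgroupOf (c (i + 1))).Normal,
        (Finite (c (i + 1) ⧸ (c i).subgroupOf (c (i + 1))) ∨
          IsCyclic (c (i + 1) ⧸ (c i).subgroupOf (c (i + 1))) ∨
          Exotic (c (i + 1) ⧸ (c i).subgroupOf (c (i + 1))))) ∧
      (¬ VirtPolycyclic G → ∃ i < k, ∃ _ : ((c i).subgroupOf (c (i + 1))).Normal,
        Exotic (c (i + 1) ⧸ (c i).subgroupOf (c (i + 1))) ∧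
        IsNoetherianRing (MonoidAlgebra ℤ (c (i + 1) ⧸ (c i).subgroupOf (c (i + 1))))) := by
  have hmax : ∀ K : Subgroup G, K.FG := fg_of_noetherian ℤ G
  obtain ⟨e, he⟩ := hn
  have hno : ∀ m, n < m → ¬ SCh m (⊥ : Subgroup G) ⊤ := fun m hm h =>
    he (ext_zero_of_chain h n hm e)
  constructor
  · intro k c h0 hk hc
    by_contra hcon
    push Not at hcon
    have h1 := sch_of_chain c k hc
    rw [h0, hk] at h1
    exact hno _ hcon h1
  · have hser : Ser (⊥ : Subgroup G) ⊤ :=
      ser_main' hmax (n + 1) ⊥ ⊤ (nm_top inferInstance) (hno _ (Nat.lt_succ_self n))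
    obtain ⟨k, c, h0, hk, hc⟩ := exists_chain hser
    have hfac : ∀ i < k, c i ≤ c (i + 1) ∧ ∃ _ : ((c i).subgroupOf (c (i + 1))).Normal,
          (Finite (c (i + 1) ⧸ (c i).subgroupOf (c (i + 1))) ∨
            IsCyclic (c (i + 1) ⧸ (c i).subgroupOf (c (i + 1))) ∨
            Exotic (c (i + 1) ⧸ (c i).subgroupOf (c (i + 1)))) := by
      intro i hi
      have h1 := hc i hi
      have h2 := normal_subgroupOf h1.1
      exact ⟨h1.1.1, h2, factor_of_fac hmax h1 h2⟩
    refine ⟨k, c, h0, hk, hfac, ?_⟩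
    intro hv
    by_contra hcon
    push Not at hcon
    apply hv
    apply virtPolycyclic_of_vsol hmax
    have h1 : VSol (c k) := by
      refine vsol_chain hmax c k h0 ?_ k le_rfl
      intro i hi
      obtain ⟨h1, h2, h3⟩ := hfac i hi
      refine ⟨h1, h2, ?_⟩
      rcases h3 with h3 | h3 | h3
      · exact Or.inl h3
      · exact Or.inr h3
      · refine (hcon i hi h2 h3 ?_).elim
        haveI := noeth_sub (c (i + 1))
        exact noeth_quot (QuotientGroup.mk' ((c i).subgroupOf (c (i + 1))))
          (QuotientGroup.mk'_surjective _)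
    rw [hk] at h1
    exact h1.of_equiv Subgroup.topEquiv

end Pool.Agent.Helper317
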