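import Mathlib
import Pool.Agent.Helper317.Coh.SerC
import Pool.Agent.Helper317.Tri

set_option autoImplicit false
set_option linter.style.haveILetI false

/-!
# Left orders, chains of prime ideals and vanishing of cohomology
-/

namespace Pool.Agent.Helper317

open Coh

universe u

theorem sch_of_desc {G : Type u} [Group G] (D : ℕ → Subgroup G) (hD0 : D 0 = ⊤)
    (hN : ∀ n, (D n).Normal) (hle : ∀ n, D (n + 1) ≤ D n)
    (hi : ∀ n, (D (n + 1)).relIndex (D n) = 0) (n : ℕ) : SCh n (⊥ : Subgroup G) ⊤ := by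
  have key : SCh n (D n) ⊤ := by
    induction n with
    | zero => rw [hD0]; exact SCh.refl _
    | succ n ih =>
      have h1 : SCh 1 (D (n + 1)) (D n) :=
        SCh.inf (SCh.refl _) ⟨hle n, fun h _ k hk => (hN (n + 1)).conj_mem k hk h⟩ (hi n)
      have h2 := h1.trans ih
      rwa [Nat.add_comm] at h2
  have h0 : SCh 0 (⊥ : Subgroup G) (D n) :=
    SCh.step (SCh.refl _) ⟨bot_le, fun h _ k hk => by
      rw [Subgroup.mem_bot] at hk ⊢; rw [hk]; simp⟩
  have h1 := h0.trans key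
  rwa [Nat.zero_add] at h1

theorem chain_or_section' (G : Type u) [Group G] [IsNoetherianRing (MonoidAlgebra ℤ G)]
    (hG : ¬ VirtPolycyclic G) :
    ((∃ (D : ℕ → Subgroup G) (_ : ∀ n, (D n).Normal), D 0 = ⊤ ∧
      ∀ n, VirtPolycyclic (G ⧸ D n) ∧ (D (n + 1)).relIndex (D n) = 0 ∧
        IsPrimeTwoSided (kerQ (D n)) ∧ kerQ (D (n + 1)) < kerQ (D n)) ∧
      ∀ (i : ℕ) (e : CategoryTheory.Abelian.Ext (triv G)
        (ModuleCat.of (MonoidAlgebra ℤ G) (MonoidAlgebra ℤ G)) i), e = 0) ∨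
    (∃ H K P : Subgroup G, Infinite H ∧ NoLO H ∧ K ≤ P ∧ P ≤ H ∧
      ∃ _ : (K.subgroupOf P).Normal, Exotic (P ⧸ K.subgroupOf P) ∧ NoLO (P ⧸ K.subgroupOf P) ∧
        IsNoetherianRing (MonoidAlgebra ℤ (P ⧸ K.subgroupOf P))) := by
  rcases chain_or_section G hG with h | h
  · left
    refine ⟨h, ?_⟩
    obtain ⟨D, hN, hD0, hD⟩ := h
    intro i e
    have hle : ∀ n, D (n + 1) ≤ D n := by
      intro n g hg
      have h1 := (hD n).2.2.2.le
      rw [TwoSidedIdeal.le_iff] at h1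
      exact (single_mem_kerQ (D n) g).1 (h1 ((single_mem_kerQ (D (n + 1)) g).2 hg))
    exact ext_zero_of_chain (sch_of_desc D hD0 hN hle (fun n => (hD n).2.1) (i + 1)) i
      (Nat.lt_succ_self i) e
  · exact Or.inr h

end Pool.Agent.Helper317
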